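import Pool.Agent.Q137.TC.Surface

/-! Positivity of the currents of integration over pseudoholomorphic curves. -/

open scoped Distributions Manifold ContDiff Topology NNReal
open MeasureTheory TopologicalSpace Filter

namespace Pool.Agent.Q137.TC

section forms

variable {L R : Type} [NormedAddCommGroup L] [NormedSpace ℂ L]
  [NormedAddCommGroup R] [NormedSpace ℝ R]

/-- `Re l ∧ Im l` for a complex linear functional `l` on `L` -/
noncomputable def kform (l : L →L[ℂ] ℂ) : (L × R) [⋀^Fin 2]→L[ℝ] ℝ :=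
  ContinuousAlternatingMap.alternatizeUncurryFin
    ((Complex.reCLM.comp ((l.restrictScalars ℝ).comp (ContinuousLinearMap.fst ℝ L R))).smulRight
      (ContinuousAlternatingMap.ofSubsingleton ℝ (L × R) ℝ (0 : Fin 1)
        (Complex.imCLM.comp ((l.restrictScalars ℝ).comp (ContinuousLinearMap.fst ℝ L R)))))

lemma kform_apply (l : L →L[ℂ] ℂ) (v w : L × R) :
    kform l ![v, w] = (l v.1).re * (l w.1).im - (l w.1).re * (l v.1).im := by
  rw [kform, ContinuousAlternatingMap.alternatizeUncurryFin_apply]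
  simp [Fin.sum_univ_two, Fin.removeNth, Fin.succAbove]
  ring

lemma kform_J (l : L →L[ℂ] ℂ) (a : L) :
    kform l ![((a, 0) : L × R), ((Complex.I • a, 0) : L × R)] = Complex.normSq (l a) := by
  rw [kform_apply]
  simp [Complex.normSq_apply]

/-- the test form `χ • kform l` -/
noncomputable def tkform {U : Opens (L × R)} (χ : 𝓓(U, ℝ)) (l : L →L[ℂ] ℂ) : TForm U 2 :=
  TestFunction.postcompCLM ((ContinuousLinearMap.id ℝ ℝ).smulRight
    (kform l : (L × R) [⋀^Fin 2]→L[ℝ] ℝ)) χ

lemma tkform_apply {U : Opens (L × R)} (χ : 𝓓(U, ℝ)) (l : L →L[ℂ] ℂ) (y : L × R) :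
    tkform χ l y = χ y • kform l := by
  simp [tkform]

lemma tsupport_tkform {U : Opens (L × R)} (χ : 𝓓(U, ℝ)) (l : L →L[ℂ] ℂ) :
    tsupport (tkform χ l) ⊆ tsupport χ := by
  apply closure_mono
  intro y hy
  simp only [Function.mem_support, tkform_apply] at hy ⊢
  intro h; apply hy; rw [h, zero_smul]

end forms

section

variable {S : Type} [TopologicalSpace S] [ChartedSpace ℂ S]

lemma exists_partition [T2Space S] (K : Set S) (hK : IsCompact K) :
    ∃ (n : ℕ) (e : Fin n → OpenPartialHomeomorph S ℂ) (ρ : Fin n → C(S, ℝ)),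
      (∀ i, e i ∈ atlas ℂ S) ∧ (∀ i, HasCompactSupport (ρ i)) ∧
      (∀ i, tsupport (ρ i) ⊆ (e i).source) ∧ (∀ i x, 0 ≤ ρ i x) ∧
      ∀ x ∈ K, ∑ i, ρ i x = 1 := by
  have : LocallyCompactSpace S := ChartedSpace.locallyCompactSpace ℂ S
  obtain ⟨t, -, ht⟩ := hK.elim_nhds_subcover (fun p => (chartAt ℂ p).source)
    (fun p _ => chart_source_mem_nhds ℂ p)
  let f := t.equivFin.symm
  obtain ⟨ρ, h1, h2, h3, h4⟩ := exists_continuous_sum_one_of_isOpen_isCompact
    (s := fun i : Fin t.card => (chartAt ℂ ((f i : t) : S)).source) (t := K)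
    (fun i => (chartAt ℂ ((f i : t) : S)).open_source) hK (by
      refine ht.trans ?_
      intro x hx
      simp only [Set.mem_iUnion] at hx ⊢
      obtain ⟨p, hp, hx⟩ := hx
      exact ⟨f.symm ⟨p, hp⟩, by simpa using hx⟩)
  refine ⟨t.card, fun i => chartAt ℂ ((f i : t) : S), ρ, fun i => chart_mem_atlas ℂ _, h4, h1,
    fun i x => (h3 i x).1, ?_⟩
  intro x hx
  have := h2 hx
  simpa using this

variable {L R : Type} [NormedAddCommGroup L] [NormedSpace ℂ L]
  [NormedAddCommGroup R] [NormedSpace ℝ R] {U : Opens (L × R)} {u : S → L × R}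

omit [NormedSpace ℝ R] in
lemma IsPHMap.continuous (hu : IsPHMap U u) : Continuous u := by
  obtain ⟨t, ht⟩ := hu.leaf
  have h1 : u = fun p => ((u p).1, t) := by
    funext p; exact Prod.ext rfl (ht p)
  rw [h1]
  exact hu.holo.continuous.prodMk continuous_const

omit [NormedSpace ℝ R] in
lemma IsPHMap.comp_holo (hu : IsPHMap U u) (l : L →L[ℂ] ℂ) :
    MDifferentiable 𝓘(ℂ) 𝓘(ℂ) (fun p => l (u p).1) :=
  (l.differentiable.mdifferentiable).comp hu.holo

lemma fderiv_chart [IsManifold 𝓘(ℂ) ω S] (hu : IsPHMap U u) {e : OpenPartialHomeomorph S ℂ}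
    (he : e ∈ atlas ℂ S) {z : ℂ} (hz : z ∈ e.target) (w : ℂ) :
    fderiv ℝ (u ∘ e.symm) z w = (fderiv ℂ ((fun p => (u p).1) ∘ e.symm) z w, 0) := by
  obtain ⟨t, ht⟩ := hu.leaf
  have h1 : u ∘ e.symm = fun y => (((fun p => (u p).1) ∘ e.symm) y, t) := by
    funext p; exact Prod.ext rfl (ht _)
  have h2 : DifferentiableAt ℂ ((fun p => (u p).1) ∘ e.symm) z :=
    (differentiableOn_chart hu.holo he).differentiableAt (e.open_target.mem_nhds hz)
  have h3 := (h2.hasFDerivAt.restrictScalars ℝ).prodMk (hasFDerivAt_const t z)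
  rw [h1, h3.fderiv]
  rfl

lemma density_tkform [IsManifold 𝓘(ℂ) ω S] (hu : IsPHMap U u) {e : OpenPartialHomeomorph S ℂ}
    (he : e ∈ atlas ℂ S) {z : ℂ} (hz : z ∈ e.target) (χ : 𝓓(U, ℝ)) (l : L →L[ℂ] ℂ) :
    density u e (tkform χ l) z =
      χ (u (e.symm z)) * Complex.normSq (deriv ((fun p => l (u p).1) ∘ e.symm) z) := by
  have h2 : DifferentiableAt ℂ ((fun p => (u p).1) ∘ e.symm) z :=
    (differentiableOn_chart hu.holo he).differentiableAt (e.open_target.mem_nhds hz)
  have h4 : deriv ((fun p => l (u p).1) ∘ e.symm) z =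
      l (fderiv ℂ ((fun p => (u p).1) ∘ e.symm) z 1) := by
    have h5 := (l.hasFDerivAt.comp z h2.hasFDerivAt).hasDerivAt
    exact h5.deriv
  have h6 : fderiv ℂ ((fun p => (u p).1) ∘ e.symm) z Complex.I =
      Complex.I • fderiv ℂ ((fun p => (u p).1) ∘ e.symm) z 1 := by
    rw [← map_smul]; simp
  rw [density, tkform_apply, fderiv_chart hu he hz, fderiv_chart hu he hz, h6, h4]
  show χ (u (e.symm z)) • kform l ![_, _] = _
  rw [kform_J, smul_eq_mul]

lemma curve_nonneg [T2Space S] [IsManifold 𝓘(ℂ) ω S] (hu : IsPHMap U u) (χ : 𝓓(U, ℝ))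
    (hχ : ∀ y, 0 ≤ χ y) (l : L →L[ℂ] ℂ) {I : ℝ} (hI : IsCurveIntegral u (tkform χ l) I) :
    0 ≤ I := by
  obtain ⟨n, e, ρ, h1, h2, h3, h4, h5⟩ := exists_partition (u ⁻¹' tsupport (tkform χ l))
    (hu.proper _ (tkform χ l).hasCompactSupport (tkform χ l).tsupport_subset)
  rw [hI n e ρ h1 h2 h3 h4 h5]
  refine Finset.sum_nonneg fun i _ => ?_
  refine setIntegral_nonneg (e i).open_target.measurableSet fun z hz => ?_
  rw [density_tkform hu (h1 i) hz]
  exact mul_nonneg (h4 _ _) (mul_nonneg (hχ _) (Complex.normSq_nonneg _))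

lemma locally_const_of_zero [T2Space S] [IsManifold 𝓘(ℂ) ω S] (hu : IsPHMap U u)
    (χ : 𝓓(U, ℝ)) (hχ : ∀ y, 0 ≤ χ y) (l : L →L[ℂ] ℂ)
    (hI : IsCurveIntegral u (tkform χ l) 0) {p : S} (hp : 0 < χ (u p)) :
    ∀ᶠ q in 𝓝 p, l (u q).1 = l (u p).1 := by
  obtain ⟨n, e, ρ, h1, h2, h3, h4, h5⟩ := exists_partition (u ⁻¹' tsupport χ)
    (hu.proper _ χ.hasCompactSupport χ.tsupport_subset)
  have h0 := hI n e ρ h1 h2 h3 h4 (fun x hx => h5 x (tsupport_tkform χ l hx))
  have huc := hu.continuous
  set G : Fin n → ℂ → ℝ := fun i z => ρ i ((e i).symm z) * density u (e i) (tkform χ l) z with hG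
  have hGn : ∀ i, ∀ z ∈ (e i).target, 0 ≤ G i z := by
    intro i z hz
    simp only [hG]
    rw [density_tkform hu (h1 i) hz]
    exact mul_nonneg (h4 _ _) (mul_nonneg (hχ _) (Complex.normSq_nonneg _))
  have hterm : ∀ i, ∫ z in (e i).target, G i z = 0 := by
    intro i
    have := (Finset.sum_eq_zero_iff_of_nonneg (fun i _ =>
      setIntegral_nonneg (e i).open_target.measurableSet (hGn i))).1 h0.symm
    exact this i (Finset.mem_univ i)
  -- some partition function is positive at p
  have hex : ∃ i, 0 < ρ i p := by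
    by_contra hno
    push Not at hno
    have h6 : ∑ i, ρ i p = 0 := Finset.sum_eq_zero fun i _ => le_antisymm (hno i) (h4 i p)
    have h7 := h5 p (subset_tsupport _ (by simpa using hp.ne'))
    rw [h6] at h7
    exact zero_ne_one h7
  obtain ⟨i, hi⟩ := hex
  have hps : p ∈ (e i).source := h3 i (subset_tsupport _ (by simpa using hi.ne'))
  have hdiff : DifferentiableOn ℂ ((fun p => l (u p).1) ∘ (e i).symm) (e i).target :=
    differentiableOn_chart (hu.comp_holo l) (h1 i)
  have hcs : ContinuousOn (e i).symm (e i).target := (e i).continuousOn_symm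
  have hGc : ContinuousOn (G i) (e i).target := by
    have h6 : ContinuousOn (fun z => ρ i ((e i).symm z) * (χ (u ((e i).symm z)) *
        Complex.normSq (deriv ((fun p => l (u p).1) ∘ (e i).symm) z))) (e i).target := by
      refine ((ρ i).continuous.comp_continuousOn hcs).mul
        (((χ.continuous.comp huc).comp_continuousOn hcs).mul ?_)
      exact Complex.continuous_normSq.comp_continuousOn
        (hdiff.deriv (e i).open_target).continuousOn
    refine h6.congr fun z hz => ?_
    simp only [hG]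
    rw [density_tkform hu (h1 i) hz]
  have hC : IsCompact ((e i) '' tsupport (ρ i)) :=
    (h2 i).image_of_continuousOn ((e i).continuousOn.mono (h3 i))
  have hCt : (e i) '' tsupport (ρ i) ⊆ (e i).target := by
    rintro _ ⟨x, hx, rfl⟩
    exact (e i).map_source (h3 i hx)
  have hint : IntegrableOn (G i) (e i).target := by
    refine ((hGc.mono hCt).integrableOn_compact hC).of_forall_sdiff_eq_zero
      (e i).open_target.measurableSet ?_
    rintro z ⟨hz1, hz2⟩
    have : ρ i ((e i).symm z) = 0 := by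
      by_contra hne
      apply hz2
      exact ⟨(e i).symm z, subset_tsupport _ hne, (e i).right_inv hz1⟩
    simp [hG, this]
  have hae : G i =ᵐ[volume.restrict (e i).target] 0 :=
    (setIntegral_eq_zero_iff_of_nonneg_ae
      (by
        rw [EventuallyLE, ae_restrict_iff' (e i).open_target.measurableSet]
        exact Eventually.of_forall (hGn i)) hint).1 (hterm i)
  have hzero : Set.EqOn (G i) 0 (e i).target :=
    Measure.eqOn_open_of_ae_eq hae (e i).open_target hGc continuousOn_const
  -- the derivative vanishes near e p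
  have hev : ∀ᶠ z in 𝓝 (e i p), deriv ((fun p => l (u p).1) ∘ (e i).symm) z = 0 ∧
      z ∈ (e i).target := by
    have ht : (e i).target ∈ 𝓝 (e i p) := (e i).open_target.mem_nhds ((e i).map_source hps)
    have hca : ContinuousAt (e i).symm (e i p) := hcs.continuousAt ht
    have hs : (e i).symm (e i p) = p := (e i).left_inv hps
    have hρ : ∀ᶠ z in 𝓝 (e i p), 0 < ρ i ((e i).symm z) := by
      have : ContinuousAt (fun z => ρ i ((e i).symm z)) (e i p) :=
        (ρ i).continuous.continuousAt.comp hca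
      exact this.eventually (lt_mem_nhds (by simpa only [hs] using hi))
    have hχ' : ∀ᶠ z in 𝓝 (e i p), 0 < χ (u ((e i).symm z)) := by
      have : ContinuousAt (fun z => χ (u ((e i).symm z))) (e i p) :=
        (χ.continuous.comp huc).continuousAt.comp hca
      exact this.eventually (lt_mem_nhds (by simpa only [hs] using hp))
    filter_upwards [hρ, hχ', ht] with z hz1 hz2 hz3
    refine ⟨?_, hz3⟩
    have h7 := hzero hz3
    simp only [hG, Pi.zero_apply] at h7
    rw [density_tkform hu (h1 i) hz3] at h7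
    rcases mul_eq_zero.1 h7 with h8 | h8
    · exact absurd h8 hz1.ne'
    · rcases mul_eq_zero.1 h8 with h9 | h9
      · exact absurd h9 hz2.ne'
      · exact Complex.normSq_eq_zero.1 h9
  obtain ⟨r, hr, hball⟩ := Metric.eventually_nhds_iff_ball.1 hev
  have hconst : ∀ z ∈ Metric.ball (e i p) r, ((fun p => l (u p).1) ∘ (e i).symm) z =
      ((fun p => l (u p).1) ∘ (e i).symm) (e i p) := by
    intro z hz
    exact Metric.isOpen_ball.is_const_of_deriv_eq_zero (convex_ball _ _).isPreconnected
      (hdiff.mono fun y hy => (hball y hy).2) (fun y hy => (hball y hy).1) hz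
      (Metric.mem_ball_self hr)
  have hb : Metric.ball (e i p) r ∈ 𝓝 (e i p) := Metric.ball_mem_nhds _ hr
  have hcp : ContinuousAt (e i) p := (e i).continuousAt hps
  filter_upwards [hcp hb, (e i).open_source.mem_nhds hps] with q hq1 hq2
  have h10 := hconst _ hq1
  simp only [Function.comp, (e i).left_inv hq2, (e i).left_inv hps] at h10
  exact h10

end

end Pool.Agent.Q137.TC
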