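import Pool.Agent.Q137.TC.Stokes

/-! The tropical cycle. -/

open scoped Distributions Manifold ContDiff Topology NNReal
open MeasureTheory TopologicalSpace Filter Topology

namespace Pool.Agent.Q137.TC

/-- leaves: `ℂ ^ (m + 2)` -/
abbrev LL (m : ℕ) := ℂ × ℂ × (Fin m → ℂ)

/-- the manifold `ℂ ^ (m + 2) × ℝ ^ k` -/
abbrev VV (m k : ℕ) := LL m × (Fin k → ℝ)

section

variable (m k : ℕ)

/-- a leafwise vector -/
def vec (a b : ℂ) : LL m := (a, b, 0)

/-- the vector of `M` tangent to the leaves with two given components -/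
def vecV (a b : ℂ) : VV m k := (vec m a b, 0)

lemma I_smul_vec (a b : ℂ) : Complex.I • vec m a b = vec m (Complex.I * a) (Complex.I * b) := by
  simp [vec]

lemma comb_vecV (x s y : ℝ) (b1 b2 a1 a2 c1 c2 : ℂ) :
    x • vecV m k b1 b2 + s • vecV m k a1 a2 + y • vecV m k c1 c2 =
      vecV m k (x * b1 + s * a1 + y * c1) (x * b2 + s * a2 + y * c2) := by
  simp [vecV, vec]

/-- first piece -/
noncomputable def P1 : ℝ × (ℝ × ℝ) →L[ℝ] VV m k :=
  par (vecV m k 0 (-Complex.I)) (vecV m k 1 1) (vecV m k Complex.I Complex.I)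
/-- second piece -/
noncomputable def P2 : ℝ × (ℝ × ℝ) →L[ℝ] VV m k :=
  par (vecV m k Complex.I 0) (vecV m k 0 1) (vecV m k 0 Complex.I)
/-- third piece -/
noncomputable def P3 : ℝ × (ℝ × ℝ) →L[ℝ] VV m k :=
  par (vecV m k 0 Complex.I) (vecV m k 1 0) (vecV m k Complex.I 0)

lemma P1_apply (q : ℝ × (ℝ × ℝ)) :
    P1 m k q = vecV m k (q.1 + q.2.2 * Complex.I) (q.1 + (q.2.2 - q.2.1) * Complex.I) := by
  rw [P1, par_apply, comb_vecV]; congr 1 <;> ring
lemma P2_apply (q : ℝ × (ℝ × ℝ)) :
    P2 m k q = vecV m k (q.2.1 * Complex.I) (q.1 + q.2.2 * Complex.I) := by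
  rw [P2, par_apply, comb_vecV]; congr 1 <;> ring
lemma P3_apply (q : ℝ × (ℝ × ℝ)) :
    P3 m k q = vecV m k (q.1 + q.2.2 * Complex.I) (q.2.1 * Complex.I) := by
  rw [P3, par_apply, comb_vecV]; congr 1 <;> ring

lemma vecV_inj {a b a' b' : ℂ} (h : vecV m k a b = vecV m k a' b') : a = a' ∧ b = b' := by
  simp only [vecV, vec, Prod.mk.injEq] at h
  exact ⟨h.1.1, h.1.2.1⟩

lemma P1_inj : Function.Injective (P1 m k) := by
  intro q q' h
  rw [P1_apply, P1_apply] at h
  obtain ⟨h1, h2⟩ := vecV_inj m k h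
  have a1 := congrArg Complex.re h1
  have a2 := congrArg Complex.im h1
  have a3 := congrArg Complex.im h2
  simp at a1 a2 a3
  refine Prod.ext a1 (Prod.ext ?_ a2)
  linarith
lemma P2_inj : Function.Injective (P2 m k) := by
  intro q q' h
  rw [P2_apply, P2_apply] at h
  obtain ⟨h1, h2⟩ := vecV_inj m k h
  have a1 := congrArg Complex.im h1
  have a2 := congrArg Complex.re h2
  have a3 := congrArg Complex.im h2
  simp at a1 a2 a3
  exact Prod.ext a2 (Prod.ext a1 a3)
lemma P3_inj : Function.Injective (P3 m k) := by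
  intro q q' h
  rw [P3_apply, P3_apply] at h
  obtain ⟨h1, h2⟩ := vecV_inj m k h
  have a1 := congrArg Complex.im h2
  have a2 := congrArg Complex.re h1
  have a3 := congrArg Complex.im h1
  simp at a1 a2 a3
  exact Prod.ext a2 (Prod.ext a1 a3)

/-- positive half space -/
abbrev Dp : Set (ℝ × (ℝ × ℝ)) := (Set.Ioi (0 : ℝ)) ×ˢ (Set.univ : Set (ℝ × ℝ))
/-- negative half space -/
abbrev Dn : Set (ℝ × (ℝ × ℝ)) := (Set.Iio (0 : ℝ)) ×ˢ (Set.univ : Set (ℝ × ℝ))

/-- the tropical current -/
noncomputable def trop : Current (⊤ : Opens (VV m k)) 2 :=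
  piece (P1 m k) (P1_inj m k) Dp (wedge (vecV m k 1 1) (vecV m k Complex.I Complex.I)) +
  piece (P2 m k) (P2_inj m k) Dn (wedge (vecV m k 0 1) (vecV m k 0 Complex.I)) +
  piece (P3 m k) (P3_inj m k) Dn (wedge (vecV m k 1 0) (vecV m k Complex.I 0))

lemma trop_apply (α : TForm (⊤ : Opens (VV m k)) 2) :
    trop m k α =
      (∫ q in Dp, wedge (vecV m k 1 1) (vecV m k Complex.I Complex.I) (α (P1 m k q))) +
      (∫ q in Dn, wedge (vecV m k 0 1) (vecV m k 0 Complex.I) (α (P2 m k q))) +
      (∫ q in Dn, wedge (vecV m k 1 0) (vecV m k Complex.I 0) (α (P3 m k q))) := by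
  rw [← piece_apply (P1 m k) (P1_inj m k), ← piece_apply (P2 m k) (P2_inj m k),
    ← piece_apply (P3 m k) (P3_inj m k)]
  rfl

lemma wedge_mem (a b : ℂ) : wedge (vecV m k a b) (vecV m k (Complex.I * a) (Complex.I * b)) ∈
    structureCone (LL m) (Fin k → ℝ) := by
  apply subset_closure
  apply Submodule.subset_span
  refine ⟨vec m a b, ?_⟩
  rw [I_smul_vec]
  rfl

lemma trop_isCCurrent : IsCCurrent (trop m k) := by
  apply mem_closedConvexCone
  intro α hα
  have key : ∀ (a b a' b' : ℂ), a' = Complex.I * a → b' = Complex.I * b → ∀ y : VV m k,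
      0 ≤ wedge (vecV m k a b) (vecV m k a' b') (α y) := by
    rintro a b _ _ rfl rfl y
    exact hα _ ⟨y, trivial, _, wedge_mem m k a b, rfl⟩
  rw [trop_apply]
  refine add_nonneg (add_nonneg ?_ ?_) ?_
  · exact integral_nonneg fun q => key _ _ _ _ (by ring) (by ring) _
  · exact integral_nonneg fun q => key _ _ _ _ (by ring) (by ring) _
  · exact integral_nonneg fun q => key _ _ _ _ (by ring) (by ring) _

/-- integral of a continuous compactly supported function after a shear -/
lemma shear {f : ℝ × ℝ → ℝ} (hf : Continuous f) (hc : HasCompactSupport f) :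
    ∫ r : ℝ × ℝ, f (r.2, r.2 - r.1) = ∫ r : ℝ × ℝ, f r := by
  have hh : IsClosedEmbedding (fun r : ℝ × ℝ => ((r.2, r.2 - r.1) : ℝ × ℝ)) := by
    let h : ℝ × ℝ ≃ₜ ℝ × ℝ :=
      { toFun := fun r => (r.2, r.2 - r.1)
        invFun := fun r => (r.1 - r.2, r.1)
        left_inv := fun r => by simp
        right_inv := fun r => by simp
        continuous_toFun := by fun_prop
        continuous_invFun := by fun_prop }
    exact h.isClosedEmbedding
  have h1 : Integrable (fun r : ℝ × ℝ => f (r.2, r.2 - r.1)) (volume.prod volume) :=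
    (hf.comp (by fun_prop)).integrable_of_hasCompactSupport (hc.comp_isClosedEmbedding hh)
  have h2 : Integrable f (volume.prod volume) := hf.integrable_of_hasCompactSupport hc
  rw [Measure.volume_eq_prod, integral_prod_symm _ h1, integral_prod _ h2]
  refine integral_congr_ae (Eventually.of_forall fun y => ?_)
  exact integral_sub_left_eq_self (fun q => f (y, q)) volume y

lemma swap_int (f : ℝ × ℝ → ℝ) : ∫ r : ℝ × ℝ, f (r.2, r.1) = ∫ r : ℝ × ℝ, f r := by
  rw [Measure.volume_eq_prod]
  exact integral_prod_swap f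

lemma trop_isCycle : IsCycle (trop m k) := by
  intro β
  have e : trop m k (dForm β) =
      piece (P1 m k) (P1_inj m k) Dp (wedge (vecV m k 1 1) (vecV m k Complex.I Complex.I))
        (dForm β) +
      piece (P2 m k) (P2_inj m k) Dn (wedge (vecV m k 0 1) (vecV m k 0 Complex.I)) (dForm β) +
      piece (P3 m k) (P3_inj m k) Dn (wedge (vecV m k 1 0) (vecV m k Complex.I 0)) (dForm β) :=
    rfl
  have s1 := stokes_pos _ _ _ (P1_inj m k) β
  have s2 := stokes_neg _ _ _ (P2_inj m k) β
  have s3 := stokes_neg _ _ _ (P3_inj m k) β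
  have e' := e.trans (congrArg₂ (· + ·) (congrArg₂ (· + ·) s1 s2) s3)
  rw [e']
  -- the plane of integration
  set Q : ℝ × ℝ → VV m k := fun r => vecV m k (r.1 * Complex.I) (r.2 * Complex.I) with hQ
  have hQe : IsClosedEmbedding Q := by
    have h0 : IsClosedEmbedding (fun r : ℝ × ℝ => P2 m k (0, r)) :=
      (closedEmb (P2_inj m k)).comp emb_r
    have : Q = fun r : ℝ × ℝ => P2 m k (0, r) := by
      funext r; rw [P2_apply]; simp [hQ]
    rw [this]; exact h0
  set f : (Fin 1 → VV m k) → ℝ × ℝ → ℝ := fun v r => β (Q r) v with hf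
  have hfc : ∀ v, Continuous (f v) := fun v =>
    (ContinuousAlternatingMap.apply ℝ (VV m k) ℝ v).continuous.comp
      (β.continuous.comp hQe.continuous)
  have hfs : ∀ v, HasCompactSupport (f v) := fun v =>
    (β.hasCompactSupport.comp_isClosedEmbedding hQe).comp_left
      (g := ContinuousAlternatingMap.apply ℝ (VV m k) ℝ v) (map_zero _)
  have hfi : ∀ v, Integrable (f v) := fun v =>
    (hfc v).integrable_of_hasCompactSupport (hfs v)
  have i1 : ∫ r : ℝ × ℝ, β (P1 m k (0, r)) ![vecV m k Complex.I Complex.I] =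
      ∫ r, f ![vecV m k Complex.I Complex.I] r := by
    rw [← shear (hfc _) (hfs _)]
    refine integral_congr_ae (Eventually.of_forall fun r => ?_)
    simp only [hf, hQ, P1_apply]
    simp
  have i2 : ∫ r : ℝ × ℝ, β (P2 m k (0, r)) ![vecV m k 0 Complex.I] =
      ∫ r, f ![vecV m k 0 Complex.I] r := by
    refine integral_congr_ae (Eventually.of_forall fun r => ?_)
    simp only [hf, hQ, P2_apply]
    simp
  have i3 : ∫ r : ℝ × ℝ, β (P3 m k (0, r)) ![vecV m k Complex.I 0] =
      ∫ r, f ![vecV m k Complex.I 0] r := by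
    rw [← swap_int]
    refine integral_congr_ae (Eventually.of_forall fun r => ?_)
    simp only [hf, hQ, P3_apply]
    simp
  change -(∫ r : ℝ × ℝ, β (P1 m k (0, r)) ![vecV m k Complex.I Complex.I]) +
    (∫ r : ℝ × ℝ, β (P2 m k (0, r)) ![vecV m k 0 Complex.I]) +
    (∫ r : ℝ × ℝ, β (P3 m k (0, r)) ![vecV m k Complex.I 0]) = 0
  rw [i1, i2, i3]
  have hsum : ∀ r, f ![vecV m k Complex.I Complex.I] r =
      f ![vecV m k 0 Complex.I] r + f ![vecV m k Complex.I 0] r := by
    intro r
    simp only [hf]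
    have h1 : (![vecV m k Complex.I Complex.I] : Fin 1 → VV m k) =
        Function.update ![vecV m k 0 Complex.I] 0 (vecV m k 0 Complex.I + vecV m k Complex.I 0) := by
      funext i; fin_cases i; simp [vecV, vec]
    have h2 : (![vecV m k 0 Complex.I] : Fin 1 → VV m k) =
        Function.update ![vecV m k 0 Complex.I] 0 (vecV m k 0 Complex.I) := by
      funext i; fin_cases i; simp
    have h3 : (![vecV m k Complex.I 0] : Fin 1 → VV m k) =
        Function.update ![vecV m k 0 Complex.I] 0 (vecV m k Complex.I 0) := by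
      funext i; fin_cases i; simp
    rw [h1, ContinuousAlternatingMap.map_update_add, ← h2, ← h3]
  rw [integral_congr_ae (Eventually.of_forall hsum), integral_add (hfi _) (hfi _)]
  ring

end

end Pool.Agent.Q137.TC
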