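import Mathlib

/-! Currents, complex cycles and pseudoholomorphic curves for the product foliation of `L × R`
with complex leaves `L × {t}`. -/

open scoped Distributions Manifold ContDiff Topology NNReal
open MeasureTheory TopologicalSpace

namespace Pool.Agent.Q137.TC

section Currents

variable {V : Type} [NormedAddCommGroup V] [NormedSpace ℝ V]

/-- compactly supported smooth `p`-forms on the open set `U`, with the usual (LF) topology -/
abbrev TForm (U : Opens V) (p : ℕ) := 𝓓(U, V [⋀^Fin p]→L[ℝ] ℝ)

/-- `p`-currents on `U`: continuous linear functionals on compactly supported smooth `p`-forms,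
with the weak topology -/
abbrev Current (U : Opens V) (p : ℕ) := TForm U p →Lₚₜ[ℝ] ℝ

lemma extDeriv_eq {p : ℕ} (β : V → V [⋀^Fin p]→L[ℝ] ℝ) :
    extDeriv β = fun x => ContinuousAlternatingMap.alternatizeUncurryFinCLM ℝ V ℝ (fderiv ℝ β x) :=
  rfl

/-- the exterior derivative of a compactly supported smooth form -/
noncomputable def dForm {U : Opens V} {p : ℕ} (β : TForm U p) : TForm U (p + 1) where
  toFun := extDeriv β
  contDiff' := by
    rw [extDeriv_eq]
    exact (ContinuousAlternatingMap.alternatizeUncurryFinCLM ℝ V ℝ).contDiff.comp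
      (β.contDiff.fderiv_right (m := ∞) (by simp))
  hasCompactSupport' := by
    rw [extDeriv_eq]
    exact (β.hasCompactSupport.fderiv ℝ).comp_left
      (g := ContinuousAlternatingMap.alternatizeUncurryFinCLM ℝ V ℝ) (map_zero _)
  tsupport_subset' := by
    rw [extDeriv_eq]
    exact ((tsupport_comp_subset
      (g := ContinuousAlternatingMap.alternatizeUncurryFinCLM ℝ V ℝ) (map_zero _) _).trans
      (tsupport_fderiv_subset ℝ)).trans β.tsupport_subset

/-- a current is a cycle if its boundary `β ↦ c (dβ)` vanishes -/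
def IsCycle {U : Opens V} {p : ℕ} (c : Current U (p + 1)) : Prop :=
  ∀ β : TForm U p, c (dForm β) = 0

/-- extension by zero of a compactly supported form -/
noncomputable def extZero {U : Opens V} {p : ℕ} (α : TForm U p) : TForm (⊤ : Opens V) p where
  toFun := α
  contDiff' := α.contDiff
  hasCompactSupport' := α.hasCompactSupport
  tsupport_subset' := Set.subset_univ _

/-- the `2`-vector `v ∧ w`, as a linear functional on `2`-covectors -/
noncomputable def wedge (v w : V) : (V [⋀^Fin 2]→L[ℝ] ℝ) →L[ℝ] ℝ :=
  ContinuousAlternatingMap.apply ℝ V ℝ ![v, w]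

/-- the Dirac current of the `2`-vector `w` at the point `y` -/
noncomputable def dirac {U : Opens V} (y : V) (w : (V [⋀^Fin 2]→L[ℝ] ℝ) →L[ℝ] ℝ) :
    Current U 2 where
  toFun α := w (α y)
  map_add' _ _ := by simp
  map_smul' _ _ := by simp
  cont := w.continuous.comp (continuous_eval_const y)

/-- the closed convex cone generated by a set -/
def closedConvexCone {E : Type} [AddCommGroup E] [Module ℝ E] [TopologicalSpace E] (s : Set E) :
    Set E :=
  closure (Submodule.span ℝ≥0 s : Set E)

end Currents

section Leafwise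

variable {L R : Type} [NormedAddCommGroup L] [NormedSpace ℂ L]
  [NormedAddCommGroup R] [NormedSpace ℝ R]

variable (L R) in
/-- The structure cone, at any point, of the leafwise complex structure `J v = i v` of the
foliation of `L × R` by the leaves `L × {t}`: the closed convex cone generated by the `2`-vectors
`v ∧ J v`, `v` tangent to the leaves. -/
def structureCone : Set (((L × R) [⋀^Fin 2]→L[ℝ] ℝ) →L[ℝ] ℝ) :=
  closedConvexCone {w | ∃ v : L, w = wedge ((v, 0) : L × R) (Complex.I • v, 0)}

/-- `C`-currents: the closed convex cone generated by the Dirac currents of elements of the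
structure cone -/
def IsCCurrent {U : Opens (L × R)} (c : Current U 2) : Prop :=
  c ∈ closedConvexCone {d : Current U 2 | ∃ y ∈ U, ∃ w ∈ structureCone L R, d = dirac y w}

/-- `u : S → U` is a proper, somewhere injective pseudoholomorphic map into a leaf -/
structure IsPHMap (U : Opens (L × R)) {S : Type} [TopologicalSpace S] [ChartedSpace ℂ S]
    (u : S → L × R) : Prop where
  mem : ∀ p, u p ∈ U
  leaf : ∃ t : R, ∀ p, (u p).2 = t
  holo : MDifferentiable 𝓘(ℂ) 𝓘(ℂ, L) (fun p => (u p).1)
  proper : ∀ K : Set (L × R), IsCompact K → K ⊆ U → IsCompact (u ⁻¹' K)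
  inj : ∃ p, mfderiv 𝓘(ℂ) 𝓘(ℂ, L) (fun p => (u p).1) p ≠ 0 ∧ ∀ q, u q = u p → q = p

/-- the coefficient of `u^* α` with respect to `dx ∧ dy` in the chart `e`, `z = x + i y` -/
noncomputable def density {S : Type} [TopologicalSpace S] (u : S → L × R)
    (e : OpenPartialHomeomorph S ℂ) (α : L × R → (L × R) [⋀^Fin 2]→L[ℝ] ℝ) (z : ℂ) : ℝ :=
  α (u (e.symm z)) ![fderiv ℝ (u ∘ e.symm) z 1, fderiv ℝ (u ∘ e.symm) z Complex.I]

/-- `I` is the integral of `u^* α` over `S`: it can be computed with any partition of unity
subordinate to holomorphic charts -/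
def IsCurveIntegral {S : Type} [TopologicalSpace S] [ChartedSpace ℂ S] (u : S → L × R)
    (α : L × R → (L × R) [⋀^Fin 2]→L[ℝ] ℝ) (I : ℝ) : Prop :=
  ∀ (n : ℕ) (e : Fin n → OpenPartialHomeomorph S ℂ) (ρ : Fin n → C(S, ℝ)),
    (∀ i, e i ∈ atlas ℂ S) → (∀ i, HasCompactSupport (ρ i)) →
    (∀ i, tsupport (ρ i) ⊆ (e i).source) → (∀ i x, 0 ≤ ρ i x) →
    (∀ x ∈ u ⁻¹' tsupport α, ∑ i, ρ i x = 1) →
    I = ∑ i, ∫ z in (e i).target, ρ i ((e i).symm z) * density u (e i) α z

/-- the set `P_U` of pseudoholomorphic curves in `U`, viewed as currents -/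
def Curves (U : Opens (L × R)) : Set (Current U 2) :=
  {c | ∃ (S : Type) (_ : TopologicalSpace S) (_ : T2Space S) (_ : ConnectedSpace S)
    (_ : ChartedSpace ℂ S) (_ : IsManifold 𝓘(ℂ) ω S) (u : S → L × R),
    IsPHMap U u ∧ ∀ α : TForm U 2, IsCurveIntegral u α (c α)}

/-- on `U`, the current `c` is a superposition of pseudoholomorphic curves, with respect to some
non-negative measure on `P_U`, defined on some `σ`-algebra for which all the evaluations
`c' ↦ c' α` are measurable -/
def IsSuperposition (c : Current (⊤ : Opens (L × R)) 2) (U : Opens (L × R)) : Prop :=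
  ∃ (m : MeasurableSpace (Curves U)) (ν : @Measure (Curves U) m),
    (∀ α : TForm U 2, @Measurable _ _ m _ fun c' : Curves U => c'.1 α) ∧
    ∀ α : TForm U 2, Integrable (fun c' : Curves U => c'.1 α) ν ∧
      c (extZero α) = ∫ c' : Curves U, c'.1 α ∂ν

/-- For `M = L × R` with the leaves `L × {t}` and `J = i`, there are a `C`-cycle `c` on `M` and a
point `x` such that on no open neighbourhood `U` of `x` is `c` a superposition of
pseudoholomorphic curves. -/
def HasBadCycle (L R : Type) [NormedAddCommGroup L] [NormedSpace ℂ L]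
    [NormedAddCommGroup R] [NormedSpace ℝ R] : Prop :=
  ∃ c : Current (⊤ : Opens (L × R)) 2, IsCCurrent c ∧ IsCycle c ∧
    ∃ x, ∀ U : Opens (L × R), x ∈ U → ¬ IsSuperposition c U

end Leafwise

end Pool.Agent.Q137.TC
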