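import Pool.Agent.Q137.TC.Cycle
import Pool.Agent.Q137.TC.Curves

/-! The tropical cycle is not a superposition of pseudoholomorphic curves near the origin. -/

open scoped Distributions Manifold ContDiff Topology NNReal
open MeasureTheory TopologicalSpace Filter Topology

namespace Pool.Agent.Q137.TC

section

variable (m k : ℕ)

/-- first coordinate -/
noncomputable def l1 : LL m →L[ℂ] ℂ := ContinuousLinearMap.fst ℂ ℂ (ℂ × (Fin m → ℂ))
/-- second coordinate -/
noncomputable def l2 : LL m →L[ℂ] ℂ :=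
  (ContinuousLinearMap.fst ℂ ℂ (Fin m → ℂ)).comp (ContinuousLinearMap.snd ℂ ℂ (ℂ × (Fin m → ℂ)))
/-- the other coordinates -/
noncomputable def l3 (j : Fin m) : LL m →L[ℂ] ℂ :=
  (ContinuousLinearMap.proj j).comp ((ContinuousLinearMap.snd ℂ ℂ (Fin m → ℂ)).comp
    (ContinuousLinearMap.snd ℂ ℂ (ℂ × (Fin m → ℂ))))

/-- all coordinates -/
noncomputable def ll : Option (Option (Fin m)) → (LL m →L[ℂ] ℂ)
  | none => l1 m
  | some none => l2 m
  | some (some j) => l3 m j

lemma l1_apply (v : LL m) : l1 m v = v.1 := rfl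
lemma l2_apply (v : LL m) : l2 m v = v.2.1 := rfl

lemma ext_ll {v w : LL m} (h : ∀ i, ll m i v = ll m i w) : v = w := by
  refine Prod.ext (h none) (Prod.ext (h (some none)) ?_)
  funext j
  exact h (some (some j))

/-- the support of the tropical current -/
def Supp : Set (VV m k) :=
  {v | v.1.2.2 = 0 ∧ v.2 = 0 ∧ ((v.1.1.re = v.1.2.1.re ∧ 0 ≤ v.1.1.re) ∨
    (v.1.1.re = 0 ∧ v.1.2.1.re ≤ 0) ∨ (v.1.2.1.re = 0 ∧ v.1.1.re ≤ 0))}

lemma isClosed_Supp : IsClosed (Supp m k) := by
  have h1 : IsClosed {v : VV m k | v.1.2.2 = 0} := isClosed_eq (by fun_prop) continuous_const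
  have h2 : IsClosed {v : VV m k | v.2 = 0} := isClosed_eq (by fun_prop) continuous_const
  have c1 : Continuous fun v : VV m k => v.1.1.re :=
    Complex.continuous_re.comp (by fun_prop)
  have c2 : Continuous fun v : VV m k => v.1.2.1.re :=
    Complex.continuous_re.comp (by fun_prop)
  have h3 : IsClosed {v : VV m k | (v.1.1.re = v.1.2.1.re ∧ 0 ≤ v.1.1.re)} :=
    (isClosed_eq c1 c2).inter (isClosed_le continuous_const c1)
  have h4 : IsClosed {v : VV m k | (v.1.1.re = 0 ∧ v.1.2.1.re ≤ 0)} :=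
    (isClosed_eq c1 continuous_const).inter (isClosed_le c2 continuous_const)
  have h5 : IsClosed {v : VV m k | (v.1.2.1.re = 0 ∧ v.1.1.re ≤ 0)} :=
    (isClosed_eq c2 continuous_const).inter (isClosed_le c1 continuous_const)
  exact h1.inter (h2.inter (h3.union (h4.union h5)))

lemma P1_mem {q : ℝ × (ℝ × ℝ)} (hq : q ∈ Dp) : P1 m k q ∈ Supp m k := by
  have hq' : 0 < q.1 := hq.1
  rw [P1_apply]
  refine ⟨rfl, rfl, Or.inl ⟨?_, ?_⟩⟩
  · simp [vecV, vec]
  · simp [vecV, vec, hq'.le]
lemma P2_mem {q : ℝ × (ℝ × ℝ)} (hq : q ∈ Dn) : P2 m k q ∈ Supp m k := by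
  have hq' : q.1 < 0 := hq.1
  rw [P2_apply]
  refine ⟨rfl, rfl, Or.inr (Or.inl ⟨?_, ?_⟩)⟩
  · simp [vecV, vec]
  · simp [vecV, vec, hq'.le]
lemma P3_mem {q : ℝ × (ℝ × ℝ)} (hq : q ∈ Dn) : P3 m k q ∈ Supp m k := by
  have hq' : q.1 < 0 := hq.1
  rw [P3_apply]
  refine ⟨rfl, rfl, Or.inr (Or.inr ⟨?_, ?_⟩)⟩
  · simp [vecV, vec]
  · simp [vecV, vec, hq'.le]

lemma trop_zero {U : Opens (VV m k)} (χ : 𝓓(U, ℝ)) (hχ : ∀ y ∈ Supp m k, χ y = 0)
    (l : LL m →L[ℂ] ℂ) : trop m k (extZero (tkform χ l)) = 0 := by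
  have key : ∀ (w : (VV m k [⋀^Fin 2]→L[ℝ] ℝ) →L[ℝ] ℝ) (y : VV m k), y ∈ Supp m k →
      w (extZero (tkform χ l) y) = 0 := by
    intro w y hy
    have h1 : extZero (tkform χ l) y = tkform χ l y := rfl
    rw [h1, tkform_apply, hχ y hy, zero_smul, map_zero]
  rw [trop_apply, setIntegral_eq_zero_of_forall_eq_zero fun q hq => key _ _ (P1_mem m k hq),
    setIntegral_eq_zero_of_forall_eq_zero fun q hq => key _ _ (P2_mem m k hq),
    setIntegral_eq_zero_of_forall_eq_zero fun q hq => key _ _ (P3_mem m k hq)]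
  simp

lemma trop_pos {U : Opens (VV m k)} (χ : 𝓓(U, ℝ)) (hχ : ∀ y, 0 ≤ χ y) (h0 : 0 < χ 0) :
    0 < trop m k (extZero (tkform χ (l1 m))) := by
  have key : ∀ (a b a' b' : ℂ) (y : VV m k), wedge (vecV m k a b) (vecV m k a' b')
      (extZero (tkform χ (l1 m)) y) = χ y * (a.re * a'.im - a'.re * a.im) := by
    intro a b a' b' y
    have h1 : extZero (tkform χ (l1 m)) y = tkform χ (l1 m) y := rfl
    rw [h1, tkform_apply, map_smul, smul_eq_mul]
    congr 1
    exact kform_apply (l1 m) (vecV m k a b) (vecV m k a' b')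
  rw [trop_apply]
  simp only [key]
  have hF : Continuous fun q => χ (P1 m k q) := χ.continuous.comp (P1 m k).continuous
  have hFs : HasCompactSupport fun q => χ (P1 m k q) :=
    χ.hasCompactSupport.comp_isClosedEmbedding (closedEmb (P1_inj m k))
  have h1 : 0 < ∫ q in Dp, χ (P1 m k q) := by
    have hn : 0 ≤ ∫ q in Dp, χ (P1 m k q) := integral_nonneg fun q => hχ _
    rcases hn.eq_or_lt with h | h
    · exfalso
      have hDo : IsOpen Dp := isOpen_Ioi.prod isOpen_univ
      have hae := (setIntegral_eq_zero_iff_of_nonneg_ae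
        (Eventually.of_forall fun q => hχ _)
        (hF.integrable_of_hasCompactSupport hFs).integrableOn).1 h.symm
      have hz : Set.EqOn (fun q => χ (P1 m k q)) 0 Dp :=
        Measure.eqOn_open_of_ae_eq hae hDo hF.continuousOn continuousOn_const
      have hz' : Set.EqOn (fun q => χ (P1 m k q)) 0 (closure Dp) :=
        hz.closure hF continuous_const
      have hmem : (0 : ℝ × (ℝ × ℝ)) ∈ closure Dp := by
        rw [closure_prod_eq, closure_Ioi]
        exact ⟨by simp, by simp⟩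
      have h3 := hz' hmem
      simp at h3
      exact absurd h3 h0.ne'
    · exact h
  have h2 : 0 ≤ ∫ q in Dn, χ (P3 m k q) := integral_nonneg fun q => hχ _
  simp
  linarith

/-- a cut-off function -/
lemma exists_cutoff (U : Opens (VV m k)) {O : Set (VV m k)} (hO : IsOpen O) (hOU : O ⊆ U)
    {y : VV m k} (hy : y ∈ O) :
    ∃ χ : 𝓓(U, ℝ), (∀ z, 0 ≤ χ z) ∧ χ y = 1 ∧ tsupport χ ⊆ O := by
  obtain ⟨f, h1, h2, h3, h4, h5⟩ := exists_contDiff_tsupport_subset (n := ⊤) (hO.mem_nhds hy)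
  refine ⟨⟨f, h3, h2, h1.trans hOU⟩, fun z => ?_, h5, h1⟩
  exact (h4 ⟨z, rfl⟩).1

lemma norm_vecV (a b : ℂ) : ‖vecV m k a b‖ = max ‖a‖ ‖b‖ := by
  simp [vecV, vec, Prod.norm_def]

lemma norm_sub_re (z : ℂ) (a : ℝ) (τ : ℝ) (hτ : τ ∈ Set.Icc (0 : ℝ) 1) (ha : a = z.re) :
    ‖z - (τ * a : ℝ)‖ ≤ ‖z‖ := by
  subst ha
  have h : ∀ w : ℂ, ‖w‖ = √(w.re ^ 2 + w.im ^ 2) := fun w => by
    rw [Complex.norm_def, Complex.normSq_apply]; congr 1; ring
  rw [h, h]
  apply Real.sqrt_le_sqrt
  have h1 : (z - (τ * z.re : ℝ)).re = (1 - τ) * z.re := by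
    rw [Complex.sub_re, Complex.ofReal_re]; ring
  have h2 : (z - (τ * z.re : ℝ)).im = z.im := by
    rw [Complex.sub_im, Complex.ofReal_im]; ring
  rw [h1, h2]
  have h3 : (1 - τ) ^ 2 ≤ 1 := by nlinarith [hτ.1, hτ.2]
  have h4 : ((1 - τ) * z.re) ^ 2 ≤ z.re ^ 2 := by
    rw [mul_pow]; nlinarith [sq_nonneg z.re]
  linarith

/-- a pseudoholomorphic curve contained in the support of the tropical current avoids the balls
centred at the origin -/
lemma curve_avoids {S : Type} [TopologicalSpace S] [T2Space S] [ConnectedSpace S]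
    [ChartedSpace ℂ S] [IsManifold 𝓘(ℂ) ω S] {U : Opens (VV m k)} {u : S → VV m k}
    (hu : IsPHMap U u) (hS : ∀ p, u p ∈ Supp m k) {r : ℝ} (hr : Metric.ball 0 r ⊆ (U : Set (VV m k)))
    (p : S) : u p ∉ Metric.ball 0 r := by
  -- `u` is nowhere locally constant
  have hnc : ∀ x : S, ¬ ((∀ᶠ q in 𝓝 x, (u q).1.1 = (u x).1.1) ∧
      (∀ᶠ q in 𝓝 x, (u q).1.2.1 = (u x).1.2.1)) := by
    rintro x ⟨h1, h2⟩
    have h1' := eq_const_of_eventually (hu.comp_holo (l1 m)) h1
    have h2' := eq_const_of_eventually (hu.comp_holo (l2 m)) h2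
    obtain ⟨y, hy, -⟩ := hu.inj
    apply hy
    have hconst : (fun p => (u p).1) = fun _ => (u x).1 := by
      funext q
      refine Prod.ext (h1' q) (Prod.ext (h2' q) ?_)
      exact (hS q).1.trans (hS x).1.symm
    rw [hconst]
    exact mfderiv_const
  set w1 : S → ℂ := fun q => (u q).1.1 with hw1
  set w2 : S → ℂ := fun q => (u q).1.2.1 with hw2
  have m1 : MDifferentiable 𝓘(ℂ) 𝓘(ℂ) w1 := hu.comp_holo (l1 m)
  have m2 : MDifferentiable 𝓘(ℂ) 𝓘(ℂ) w2 := hu.comp_holo (l2 m)
  have c1 : Continuous w1 := m1.continuous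
  have c2 : Continuous w2 := m2.continuous
  have hueq : ∀ q, u q = vecV m k (w1 q) (w2 q) := by
    intro q
    refine Prod.ext (Prod.ext rfl (Prod.ext rfl ?_)) (hS q).2.1
    exact (hS q).1
  -- three closed sets
  set A : Set S := {q | (w1 q - w2 q).re = 0} with hA
  set B : Set S := {q | (w1 q).re = 0} with hB
  set C : Set S := {q | (w2 q).re = 0} with hC
  have hAc : IsClosed A := isClosed_eq (Complex.continuous_re.comp (c1.sub c2)) continuous_const
  have hBc : IsClosed B := isClosed_eq (Complex.continuous_re.comp c1) continuous_const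
  have hCc : IsClosed C := isClosed_eq (Complex.continuous_re.comp c2) continuous_const
  have hcov : A ∪ (B ∪ C) = Set.univ := by
    refine Set.eq_univ_of_forall fun q => ?_
    rcases (hS q).2.2 with h | h | h
    · left; show (w1 q - w2 q).re = 0
      rw [Complex.sub_re, sub_eq_zero]; exact h.1
    · right; left; exact h.1
    · right; right; exact h.1
  have hex : (interior A).Nonempty ∨ (interior B).Nonempty ∨ (interior C).Nonempty := by
    by_contra hno
    simp only [not_or, Set.not_nonempty_iff_eq_empty] at hno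
    obtain ⟨a1, a2, a3⟩ := hno
    have b1 : interior (B ∪ C) = ∅ := by
      rw [interior_union_isClosed_of_interior_empty hBc a3, a2]
    have b2 : interior (A ∪ (B ∪ C)) = ∅ := by
      rw [interior_union_isClosed_of_interior_empty hAc b1, a1]
    rw [hcov, interior_univ] at b2
    exact Set.empty_ne_univ b2.symm
  have hopen : ∀ (g : S → ℂ), MDifferentiable 𝓘(ℂ) 𝓘(ℂ) g → (∀ x, ¬ ∀ᶠ q in 𝓝 x, g q = g x) →
      ∀ x, 𝓝 (g x) ≤ map g (𝓝 x) := fun g hg hn x =>
    (eventually_const_or_open hg x).resolve_left (hn x)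
  rcases hex with ⟨x, hx⟩ | ⟨x, hx⟩ | ⟨x, hx⟩
  · -- `w1 - w2` is constant
    have mh : MDifferentiable 𝓘(ℂ) 𝓘(ℂ) (fun q => w1 q - w2 q) := hu.comp_holo (l1 m - l2 m)
    have h1 : ∀ᶠ q in 𝓝 x, (w1 q - w2 q).re = 0 := mem_interior_iff_mem_nhds.1 hx
    have h2 := eq_const_of_eventually mh (eventually_const_of_re mh h1)
    set c : ℂ := w1 x - w2 x with hc
    have hcre : c.re = 0 := h1.self_of_nhds
    have hw : ∀ q, w2 q = w1 q - c := fun q => by rw [← h2 q]; ring
    have hn1 : ∀ y, ¬ ∀ᶠ q in 𝓝 y, w1 q = w1 y := by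
      intro y hy
      apply hnc y
      refine ⟨hy, ?_⟩
      filter_upwards [hy] with q hq
      show w2 q = w2 y
      rw [hw, hw, hq]
    have hre : ∀ q, 0 ≤ (w1 q).re := by
      intro q
      have e : (w2 q).re = (w1 q).re := by rw [hw, Complex.sub_re, hcre, sub_zero]
      rcases (hS q).2.2 with h | h | h
      · exact h.2
      · exact h.1.ge
      · rw [← e]; exact h.1.ge
    refine avoid_ball hu.proper c1 (hopen w1 m1 hn1) (Φ := fun ζ => vecV m k ζ (ζ - c)) ?_ ?_ ?_
      (re_pos m1 hn1 hre) hr ?_ p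
    · exact Continuous.prodMk (Continuous.prodMk continuous_id
        (Continuous.prodMk (continuous_id.sub continuous_const) continuous_const)) continuous_const
    · intro ζ ζ' h
      exact (vecV_inj m k h).1
    · intro q
      show u q = vecV m k (w1 q) (w1 q - c)
      rw [hueq q, hw q]
    · intro ζ τ hτ
      show ‖vecV m k (ζ - (τ * ζ.re : ℝ)) (ζ - (τ * ζ.re : ℝ) - c)‖ ≤ ‖vecV m k ζ (ζ - c)‖
      rw [norm_vecV, norm_vecV]
      refine max_le_max (norm_sub_re ζ _ τ hτ rfl) ?_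
      have e : ζ - (τ * ζ.re : ℝ) - c = (ζ - c) - (τ * ζ.re : ℝ) := by ring
      rw [e]
      exact norm_sub_re (ζ - c) _ τ hτ (by rw [Complex.sub_re, hcre, sub_zero])
  · -- `w1` is constant
    have h1 : ∀ᶠ q in 𝓝 x, (w1 q).re = 0 := mem_interior_iff_mem_nhds.1 hx
    have h2 := eq_const_of_eventually m1 (eventually_const_of_re m1 h1)
    set c : ℂ := w1 x with hc
    have hcre : c.re = 0 := h1.self_of_nhds
    have mg : MDifferentiable 𝓘(ℂ) 𝓘(ℂ) (fun q => - w2 q) := hu.comp_holo (- l2 m)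
    have hn1 : ∀ y, ¬ ∀ᶠ q in 𝓝 y, - w2 q = - w2 y := by
      intro y hy
      apply hnc y
      refine ⟨Eventually.of_forall fun q => (h2 q).trans (h2 y).symm, ?_⟩
      filter_upwards [hy] with q hq
      exact neg_injective hq
    have hre : ∀ q, 0 ≤ (- w2 q).re := by
      intro q
      have e : (w1 q).re = 0 := by rw [h2, hcre]
      rw [Complex.neg_re]
      rcases (hS q).2.2 with h | h | h
      · have : (w2 q).re = 0 := by rw [← e]; exact h.1.symm
        rw [this, neg_zero]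
      · exact neg_nonneg.2 h.2
      · have : (w2 q).re = 0 := h.1
        rw [this, neg_zero]
    refine avoid_ball hu.proper c2.neg (hopen _ mg hn1) (Φ := fun ζ => vecV m k c (-ζ)) ?_ ?_ ?_
      (re_pos mg hn1 hre) hr ?_ p
    · exact Continuous.prodMk (Continuous.prodMk continuous_const
        (Continuous.prodMk continuous_neg continuous_const)) continuous_const
    · intro ζ ζ' h
      exact neg_injective (vecV_inj m k h).2
    · intro q
      show u q = vecV m k c (- - w2 q)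
      rw [neg_neg, hueq q, h2 q]
    · intro ζ τ hτ
      show ‖vecV m k c (-(ζ - (τ * ζ.re : ℝ)))‖ ≤ ‖vecV m k c (-ζ)‖
      rw [norm_vecV, norm_vecV, norm_neg, norm_neg]
      exact max_le_max le_rfl (norm_sub_re ζ _ τ hτ rfl)
  · -- `w2` is constant
    have h1 : ∀ᶠ q in 𝓝 x, (w2 q).re = 0 := mem_interior_iff_mem_nhds.1 hx
    have h2 := eq_const_of_eventually m2 (eventually_const_of_re m2 h1)
    set c : ℂ := w2 x with hc
    have hcre : c.re = 0 := h1.self_of_nhds
    have mg : MDifferentiable 𝓘(ℂ) 𝓘(ℂ) (fun q => - w1 q) := hu.comp_holo (- l1 m)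
    have hn1 : ∀ y, ¬ ∀ᶠ q in 𝓝 y, - w1 q = - w1 y := by
      intro y hy
      apply hnc y
      refine ⟨?_, Eventually.of_forall fun q => (h2 q).trans (h2 y).symm⟩
      filter_upwards [hy] with q hq
      exact neg_injective hq
    have hre : ∀ q, 0 ≤ (- w1 q).re := by
      intro q
      have e : (w2 q).re = 0 := by rw [h2, hcre]
      rw [Complex.neg_re]
      rcases (hS q).2.2 with h | h | h
      · have : (w1 q).re = 0 := by rw [← e]; exact h.1
        rw [this, neg_zero]
      · have : (w1 q).re = 0 := h.1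
        rw [this, neg_zero]
      · exact neg_nonneg.2 h.2
    refine avoid_ball hu.proper c1.neg (hopen _ mg hn1) (Φ := fun ζ => vecV m k (-ζ) c) ?_ ?_ ?_
      (re_pos mg hn1 hre) hr ?_ p
    · exact Continuous.prodMk (Continuous.prodMk continuous_neg
        (Continuous.prodMk continuous_const continuous_const)) continuous_const
    · intro ζ ζ' h
      exact neg_injective (vecV_inj m k h).1
    · intro q
      show u q = vecV m k (- - w1 q) c
      rw [neg_neg, hueq q, h2 q]
    · intro ζ τ hτ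
      show ‖vecV m k (-(ζ - (τ * ζ.re : ℝ))) c‖ ≤ ‖vecV m k (-ζ) c‖
      rw [norm_vecV, norm_vecV, norm_neg, norm_neg]
      exact max_le_max (norm_sub_re ζ _ τ hτ rfl) le_rfl

/-- the tropical current is not a superposition of pseudoholomorphic curves near the origin -/
theorem not_superposition (U : Opens (VV m k)) (hU : (0 : VV m k) ∈ U) :
    ¬ IsSuperposition (trop m k) U := by
  rintro ⟨mm, ν, hmeas, hν⟩
  obtain ⟨r, hr, hball⟩ := Metric.isOpen_iff.1 U.isOpen 0 hU
  -- cut-off functions away from the support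
  have hO : IsOpen ((U : Set (VV m k)) \ Supp m k) := U.isOpen.sdiff (isClosed_Supp m k)
  choose χ hχ1 hχ2 hχ3 using fun y : ((U : Set (VV m k)) \ Supp m k : Set (VV m k)) =>
    exists_cutoff m k U hO Set.sdiff_subset y.2
  obtain ⟨T, hT, hTU⟩ := TopologicalSpace.isOpen_iUnion_countable
    (fun y : ((U : Set (VV m k)) \ Supp m k : Set (VV m k)) => {z | 0 < χ y z})
    (fun y => isOpen_lt continuous_const (χ y).continuous)
  have hae : ∀ᵐ c' : Curves U ∂ν, ∀ y ∈ T, ∀ i, c'.1 (tkform (χ y) (ll m i)) = 0 := by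
    rw [ae_ball_iff hT]
    intro y hy
    rw [ae_all_iff]
    intro i
    have h1 := (hν (tkform (χ y) (ll m i))).1
    have h2 := (hν (tkform (χ y) (ll m i))).2
    rw [trop_zero m k (χ y) (fun z hz => by
      by_contra hne
      exact (hχ3 y (subset_tsupport _ hne)).2 hz)] at h2
    have h3 : 0 ≤ fun c' : Curves U => c'.1 (tkform (χ y) (ll m i)) := by
      intro c'
      obtain ⟨S, t1, t2, t3, t4, t5, u, hu, hI⟩ := c'.2
      exact curve_nonneg hu (χ y) (hχ1 y) (ll m i) (hI _)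
    exact (integral_eq_zero_iff_of_nonneg h3 h1).1 h2.symm
  -- test form near the origin
  obtain ⟨χ0, g1, g2, g3⟩ := exists_cutoff m k U Metric.isOpen_ball hball
    (Metric.mem_ball_self hr : (0 : VV m k) ∈ Metric.ball 0 r)
  have hpos := trop_pos m k χ0 g1 (by rw [g2]; exact one_pos)
  rw [(hν (tkform χ0 (l1 m))).2] at hpos
  have hzero : ∫ c' : Curves U, c'.1 (tkform χ0 (l1 m)) ∂ν = 0 := by
    apply integral_eq_zero_of_ae
    filter_upwards [hae] with c' hc'
    obtain ⟨S, t1, t2, t3, t4, t5, u, hu, hI⟩ := c'.2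
    have hS : ∀ p, u p ∈ Supp m k := by
      intro p
      by_contra hp
      have hmem : u p ∈ ⋃ y ∈ T, {z | 0 < χ y z} := by
        rw [hTU]
        refine Set.mem_iUnion.2 ⟨⟨u p, hu.mem p, hp⟩, ?_⟩
        show 0 < χ _ (u p)
        rw [hχ2 ⟨u p, hu.mem p, hp⟩]; exact one_pos
      simp only [Set.mem_iUnion] at hmem
      obtain ⟨y, hy, hyp⟩ := hmem
      have h4 : ∀ i q, ll m i (u q).1 = ll m i (u p).1 := by
        intro i q
        have h5 := hI (tkform (χ y) (ll m i))
        rw [hc' y hy i] at h5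
        exact eq_const_of_eventually (hu.comp_holo (ll m i))
          (locally_const_of_zero hu (χ y) (hχ1 y) (ll m i) h5 hyp) q
      obtain ⟨x, hx, -⟩ := hu.inj
      apply hx
      have hconst : (fun p => (u p).1) = fun _ => (u p).1 := by
        funext q
        exact ext_ll m (fun i => h4 i q)
      rw [hconst]
      exact mfderiv_const
    have h6 := hI (tkform χ0 (l1 m)) 0 (fun i => i.elim0) (fun i => i.elim0) (fun i => i.elim0)
      (fun i => i.elim0) (fun i => i.elim0) (fun i => i.elim0) (by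
        intro x hx
        exact absurd (g3 (tsupport_tkform χ0 (l1 m) hx)) (curve_avoids m k hu hS hball x))
    rw [h6]
    simp
  rw [hzero] at hpos
  exact lt_irrefl _ hpos

end

end Pool.Agent.Q137.TC
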