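import Pool.Agent.Q137.TC.Defs

/-! Currents given by measures, and the closed convex cone generated by Dirac currents. -/

open scoped Distributions Manifold ContDiff Topology NNReal
open MeasureTheory TopologicalSpace Filter

namespace Pool.Agent.Q137.TC

section

variable {V : Type} [NormedAddCommGroup V] [NormedSpace ℝ V]

lemma continuousSMul_current {U : Opens V} {p : ℕ} : ContinuousSMul ℝ (Current U p) := by
  refine ⟨PointwiseConvergenceCLM.continuous_of_continuous_eval fun α => ?_⟩
  have h : Continuous (fun d : Current U p => d α) := continuous_eval_const α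
  exact continuous_fst.mul (h.comp continuous_snd)

/-- bipolar theorem for the weak topology of currents -/
lemma mem_closedConvexCone {U : Opens V} {p : ℕ} (s : Set (Current U p)) (c : Current U p)
    (h : ∀ α : TForm U p, (∀ d ∈ s, 0 ≤ d α) → 0 ≤ c α) : c ∈ closedConvexCone s := by
  by_contra hc
  have hconv : Convex ℝ (closedConvexCone s) := by
    apply Convex.closure
    intro x hx y hy a b ha hb hab
    have h1 : a • x = (⟨a, ha⟩ : ℝ≥0) • x := rfl
    have h2 : b • y = (⟨b, hb⟩ : ℝ≥0) • y := rfl
    rw [h1, h2]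
    exact Submodule.add_mem _ (Submodule.smul_mem _ _ hx) (Submodule.smul_mem _ _ hy)
  have := continuousSMul_current (U := U) (p := p)
  obtain ⟨f, u, hf1, hf2⟩ := geometric_hahn_banach_closed_point hconv isClosed_closure hc
  -- `f` is evaluation at a form
  obtain ⟨α, hα⟩ : ∃ α : TForm U p, ∀ d : Current U p, f d = d α := by
    let g : WeakDual ℝ (TForm U p) →L[ℝ] ℝ :=
      f.comp (PointwiseConvergenceCLM.equivWeakDual ℝ (TForm U p)).symm.toContinuousLinearMap
    obtain ⟨α, hα⟩ := LinearMap.dualEmbedding_surjective (topDualPairing ℝ (TForm U p)) g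
    refine ⟨α, fun d => ?_⟩
    have h3 := congrArg (fun k => k (PointwiseConvergenceCLM.equivWeakDual ℝ (TForm U p) d)) hα
    simp only [g] at h3
    have h4 : f d = (f.comp (PointwiseConvergenceCLM.equivWeakDual ℝ
        (TForm U p)).symm.toContinuousLinearMap)
        (PointwiseConvergenceCLM.equivWeakDual ℝ (TForm U p) d) := by
      simp
    exact h4.trans h3.symm
  have hu : 0 < u := by
    have := hf1 0 (subset_closure (Submodule.zero_mem _))
    simpa using this
  have hneg : ∀ d ∈ s, d α ≤ 0 := by
    intro d hd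
    by_contra hpos
    rw [not_le] at hpos
    obtain ⟨n, hn⟩ := exists_nat_gt (u / d α)
    have h5 := hf1 ((n : ℝ≥0) • d) (subset_closure (Submodule.smul_mem _ _
      (Submodule.subset_span hd)))
    rw [hα] at h5
    have h6 : ((n : ℝ≥0) • d) α = n * d α := by
      have : ((n : ℝ≥0) • d) = (n : ℝ) • d := by
        rw [NNReal.smul_def]; simp
      rw [this]; simp
    rw [h6] at h5
    rw [div_lt_iff₀ hpos] at hn
    linarith
  have h7 := h (-α) (fun d hd => by
    have := hneg d hd
    rw [map_neg]; linarith)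
  rw [map_neg] at h7
  rw [hα] at hf2
  linarith

section meas

variable [MeasurableSpace V] [BorelSpace V]

/-- the current `α ↦ ∫ w (α y) dμ(y)` -/
noncomputable def measCurrent (μ : Measure V) [IsFiniteMeasureOnCompacts μ]
    (w : (V [⋀^Fin 2]→L[ℝ] ℝ) →L[ℝ] ℝ) : Current (⊤ : Opens V) 2 :=
  (TestFunction.limitCLM ℝ (fun α : TForm (⊤ : Opens V) 2 => ∫ y, w (α y) ∂μ)
    (fun _ _ => ContDiffMapSupportedIn.integralAgainstBilinCLM
      ((ContinuousLinearMap.mul ℝ ℝ).comp w) μ (fun _ => (1 : ℝ)))
    (fun K hK f => by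
      rw [ContDiffMapSupportedIn.integralAgainstBilinCLM_eq_integral]
      · simp
      · exact continuousOn_const.integrableOn_compact K.isCompact) :
    TForm (⊤ : Opens V) 2 →L[ℝ] ℝ)

lemma measCurrent_apply (μ : Measure V) [IsFiniteMeasureOnCompacts μ]
    (w : (V [⋀^Fin 2]→L[ℝ] ℝ) →L[ℝ] ℝ) (α : TForm (⊤ : Opens V) 2) :
    measCurrent μ w α = ∫ y, w (α y) ∂μ := rfl

end meas

end

end Pool.Agent.Q137.TC
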