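import Pool.Agent.Q137.TC.Meas

/-! Integration over half spaces and the formula of Stokes. -/

open scoped Distributions Manifold ContDiff Topology NNReal
open MeasureTheory TopologicalSpace Filter Topology

namespace Pool.Agent.Q137.TC

section

variable {V : Type} [NormedAddCommGroup V] [NormedSpace ℝ V] [FiniteDimensional ℝ V]
  [MeasurableSpace V] [BorelSpace V]

/-- the linear parametrisation `(x, (s, y)) ↦ x b + s a + y c` -/
noncomputable def par (a b c : V) : ℝ × (ℝ × ℝ) →L[ℝ] V :=
  (ContinuousLinearMap.fst ℝ ℝ (ℝ × ℝ)).smulRight b +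
  ((ContinuousLinearMap.fst ℝ ℝ ℝ).comp (ContinuousLinearMap.snd ℝ ℝ (ℝ × ℝ))).smulRight a +
  ((ContinuousLinearMap.snd ℝ ℝ ℝ).comp (ContinuousLinearMap.snd ℝ ℝ (ℝ × ℝ))).smulRight c

omit [FiniteDimensional ℝ V] [MeasurableSpace V] [BorelSpace V] in
lemma par_apply (a b c : V) (q : ℝ × (ℝ × ℝ)) :
    par a b c q = q.1 • b + q.2.1 • a + q.2.2 • c := rfl

omit [FiniteDimensional ℝ V] [MeasurableSpace V] [BorelSpace V] in
lemma closedEmb {P : ℝ × (ℝ × ℝ) →L[ℝ] V} (hP : Function.Injective P) :
    IsClosedEmbedding P :=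
  LinearMap.isClosedEmbedding_of_injective (f := P.toLinearMap) (LinearMap.ker_eq_bot.2 hP)

lemma finOnCompacts {P : ℝ × (ℝ × ℝ) →L[ℝ] V} (hP : Function.Injective P)
    (D : Set (ℝ × (ℝ × ℝ))) :
    IsFiniteMeasureOnCompacts ((volume.restrict D).map P) := by
  refine ⟨fun K hK => ?_⟩
  rw [Measure.map_apply (closedEmb hP).continuous.measurable hK.measurableSet]
  exact lt_of_le_of_lt (Measure.restrict_apply_le _ _)
    ((closedEmb hP).isCompact_preimage hK).measure_lt_top

/-- integration over `P(D)` against the `2`-vector `w` -/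
noncomputable def piece (P : ℝ × (ℝ × ℝ) →L[ℝ] V) (hP : Function.Injective P)
    (D : Set (ℝ × (ℝ × ℝ))) (w : (V [⋀^Fin 2]→L[ℝ] ℝ) →L[ℝ] ℝ) : Current (⊤ : Opens V) 2 :=
  @measCurrent V _ _ _ _ ((volume.restrict D).map P) (finOnCompacts hP D) w

lemma piece_apply (P : ℝ × (ℝ × ℝ) →L[ℝ] V) (hP : Function.Injective P)
    (D : Set (ℝ × (ℝ × ℝ))) (w : (V [⋀^Fin 2]→L[ℝ] ℝ) →L[ℝ] ℝ) (α : TForm (⊤ : Opens V) 2) :
    piece P hP D w α = ∫ q in D, w (α (P q)) := by
  have h := @measCurrent_apply V _ _ _ _ ((volume.restrict D).map P) (finOnCompacts hP D) w α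
  rw [piece, h]
  exact (closedEmb hP).measurableEmbedding.integral_map _

omit [FiniteDimensional ℝ V] [MeasurableSpace V] [BorelSpace V] in
/-- directional derivatives along the parametrisation -/
lemma dForm_par (a b c : V) (β : TForm (⊤ : Opens V) 1) (q : ℝ × (ℝ × ℝ)) :
    wedge b c (dForm β (par a b c q)) =
      fderiv ℝ (fun r => β (par a b c r) ![c]) q (1, (0, 0)) -
      fderiv ℝ (fun r => β (par a b c r) ![b]) q (0, (0, 1)) := by
  have hβ : DifferentiableAt ℝ β (par a b c q) :=
    (β.contDiff.differentiable (by simp)) _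
  have h1 : wedge b c (dForm β (par a b c q)) = extDeriv β (par a b c q) ![b, c] := rfl
  have key : ∀ (v : Fin 1 → V) (w : ℝ × (ℝ × ℝ)),
      fderiv ℝ (fun r => β (par a b c r) v) q w =
        fderiv ℝ (fun y => β y v) (par a b c q) (par a b c w) := by
    intro v w
    have h2 : DifferentiableAt ℝ (fun y => β y v) (par a b c q) := by
      exact (ContinuousAlternatingMap.apply ℝ V ℝ v).differentiableAt.comp _ hβ
    have h3 := h2.hasFDerivAt.comp q (par a b c).hasFDerivAt
    have h4 : (fun r => β (par a b c r) v) = (fun y => β y v) ∘ (par a b c) := rfl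
    rw [h4, h3.fderiv]
    rfl
  rw [h1, extDeriv_apply hβ, key, key]
  have e1 : par a b c (1, (0, 0)) = b := by simp [par_apply]
  have e2 : par a b c (0, (0, 1)) = c := by simp [par_apply]
  rw [e1, e2]
  have e3 : (0 : Fin 2).removeNth ![b, c] = ![c] := by
    funext i; fin_cases i; rfl
  have e4 : (1 : Fin 2).removeNth ![b, c] = ![b] := by
    funext i; fin_cases i; rfl
  simp [Fin.sum_univ_two, e3, e4, sub_eq_add_neg]

section half

lemma emb_x (r : ℝ × ℝ) : IsClosedEmbedding (fun x : ℝ => (x, r)) :=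
  Isometry.isClosedEmbedding fun x y => by simp [Prod.edist_eq]

lemma emb_y (x s : ℝ) : IsClosedEmbedding (fun y : ℝ => (x, (s, y))) :=
  Isometry.isClosedEmbedding fun x y => by simp [Prod.edist_eq]

lemma emb_r : IsClosedEmbedding (fun r : ℝ × ℝ => ((0 : ℝ), r)) :=
  Isometry.isClosedEmbedding fun x y => by simp [Prod.edist_eq]

variable {F : ℝ × (ℝ × ℝ) → ℝ} (hF : ContDiff ℝ ∞ F) (hc : HasCompactSupport F)

include hF hc

lemma integrable_fderiv (v : ℝ × (ℝ × ℝ)) :
    Integrable (fun q => fderiv ℝ F q v) (volume : Measure (ℝ × (ℝ × ℝ))) := by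
  apply Continuous.integrable_of_hasCompactSupport
  · exact (hF.continuous_fderiv (by simp)).clm_apply continuous_const
  · exact hc.fderiv_apply ℝ _

omit hc in
lemma deriv_x (r : ℝ × ℝ) (x : ℝ) :
    deriv (fun x : ℝ => F (x, r)) x = fderiv ℝ F (x, r) (1, (0, 0)) := by
  have h1 : HasFDerivAt F (fderiv ℝ F (x, r)) (x, r) :=
    (hF.differentiable (by simp) _).hasFDerivAt
  have h2 : HasDerivAt (fun x : ℝ => (x, r)) (1, (0, 0)) x :=
    (hasDerivAt_id x).prodMk (hasDerivAt_const x r)
  exact (h1.comp_hasDerivAt x h2).deriv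

omit hc in
lemma deriv_y (x s y : ℝ) :
    deriv (fun y : ℝ => F (x, (s, y))) y = fderiv ℝ F (x, (s, y)) (0, (0, 1)) := by
  have h1 : HasFDerivAt F (fderiv ℝ F (x, (s, y))) (x, (s, y)) :=
    (hF.differentiable (by simp) _).hasFDerivAt
  have h2 : HasDerivAt (fun y : ℝ => (x, (s, y))) (0, (0, 1)) y :=
    (hasDerivAt_const y x).prodMk ((hasDerivAt_const y s).prodMk (hasDerivAt_id y))
  exact (h1.comp_hasDerivAt y h2).deriv

lemma int_dx_pos : ∫ q in (Set.Ioi (0 : ℝ)) ×ˢ (Set.univ : Set (ℝ × ℝ)),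
    fderiv ℝ F q (1, (0, 0)) = - ∫ r : ℝ × ℝ, F (0, r) := by
  have hint := (integrable_fderiv hF hc (1, (0, 0))).integrableOn
    (s := (Set.Ioi (0 : ℝ)) ×ˢ (Set.univ : Set (ℝ × ℝ)))
  rw [IntegrableOn, Measure.volume_eq_prod, ← Measure.prod_restrict, Measure.restrict_univ] at hint
  rw [Measure.volume_eq_prod, ← Measure.prod_restrict, Measure.restrict_univ,
    integral_prod_symm _ hint, ← integral_neg]
  refine integral_congr_ae (Eventually.of_forall fun r => ?_)
  show ∫ x in Set.Ioi (0 : ℝ), fderiv ℝ F (x, r) (1, (0, 0)) = - F (0, r)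
  have h1 : ContDiff ℝ 1 (fun x : ℝ => F (x, r)) :=
    (hF.of_le (by simp)).comp (contDiff_id.prodMk contDiff_const)
  have h2 : HasCompactSupport (fun x : ℝ => F (x, r)) := hc.comp_isClosedEmbedding (emb_x r)
  rw [← h2.integral_Ioi_deriv_eq h1 0]
  refine integral_congr_ae (Eventually.of_forall fun x => ?_)
  exact (deriv_x hF r x).symm

lemma int_dx_neg : ∫ q in (Set.Iio (0 : ℝ)) ×ˢ (Set.univ : Set (ℝ × ℝ)),
    fderiv ℝ F q (1, (0, 0)) = ∫ r : ℝ × ℝ, F (0, r) := by
  have hint := (integrable_fderiv hF hc (1, (0, 0))).integrableOn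
    (s := (Set.Iio (0 : ℝ)) ×ˢ (Set.univ : Set (ℝ × ℝ)))
  rw [IntegrableOn, Measure.volume_eq_prod, ← Measure.prod_restrict, Measure.restrict_univ] at hint
  rw [Measure.volume_eq_prod, ← Measure.prod_restrict, Measure.restrict_univ,
    integral_prod_symm _ hint]
  refine integral_congr_ae (Eventually.of_forall fun r => ?_)
  show ∫ x in Set.Iio (0 : ℝ), fderiv ℝ F (x, r) (1, (0, 0)) = F (0, r)
  have h1 : ContDiff ℝ 1 (fun x : ℝ => F (x, r)) :=
    (hF.of_le (by simp)).comp (contDiff_id.prodMk contDiff_const)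
  have h2 : HasCompactSupport (fun x : ℝ => F (x, r)) := hc.comp_isClosedEmbedding (emb_x r)
  rw [← integral_Iic_eq_integral_Iio, ← h2.integral_Iic_deriv_eq h1 0]
  refine integral_congr_ae (Eventually.of_forall fun x => ?_)
  exact (deriv_x hF r x).symm

lemma int_dy (I : Set ℝ) : ∫ q in I ×ˢ (Set.univ : Set (ℝ × ℝ)),
    fderiv ℝ F q (0, (0, 1)) = 0 := by
  have hint := (integrable_fderiv hF hc (0, (0, 1))).integrableOn
    (s := I ×ˢ (Set.univ : Set (ℝ × ℝ)))
  rw [IntegrableOn, Measure.volume_eq_prod, ← Measure.prod_restrict, Measure.restrict_univ] at hint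
  rw [Measure.volume_eq_prod, ← Measure.prod_restrict, Measure.restrict_univ,
    integral_prod _ hint]
  apply integral_eq_zero_of_ae
  refine Eventually.of_forall fun x => ?_
  show ∫ r : ℝ × ℝ, fderiv ℝ F (x, r) (0, (0, 1)) = 0
  have hfc : HasCompactSupport (fun q => fderiv ℝ F q (0, (0, 1))) := hc.fderiv_apply ℝ _
  have hi2 : Integrable (fun r : ℝ × ℝ => fderiv ℝ F (x, r) (0, (0, 1))) := by
    apply Continuous.integrable_of_hasCompactSupport
    · exact ((hF.continuous_fderiv (by simp)).comp (by fun_prop)).clm_apply continuous_const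
    · have he : IsClosedEmbedding (fun r : ℝ × ℝ => (x, r)) :=
        Isometry.isClosedEmbedding fun x y => by simp [Prod.edist_eq]
      exact hfc.comp_isClosedEmbedding he
  rw [Measure.volume_eq_prod] at hi2 ⊢
  rw [integral_prod _ hi2]
  apply integral_eq_zero_of_ae
  refine Eventually.of_forall fun s => ?_
  show ∫ y : ℝ, fderiv ℝ F (x, (s, y)) (0, (0, 1)) = 0
  have h1 : ContDiff ℝ 1 (fun y : ℝ => F (x, (s, y))) :=
    (hF.of_le (by simp)).comp (contDiff_const.prodMk (contDiff_const.prodMk contDiff_id))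
  have h2 : HasCompactSupport (fun y : ℝ => F (x, (s, y))) :=
    hc.comp_isClosedEmbedding (emb_y x s)
  have h3 : ∫ y, deriv (fun y : ℝ => F (x, (s, y))) y = 0 := by
    apply integral_eq_zero_of_hasDerivAt_of_integrable (f := fun y : ℝ => F (x, (s, y)))
    · intro y
      exact ((h1.differentiable one_ne_zero) y).hasDerivAt
    · exact (h1.continuous_deriv le_rfl).integrable_of_hasCompactSupport h2.deriv
    · exact h1.continuous.integrable_of_hasCompactSupport h2
  refine Eq.trans (integral_congr_ae (Eventually.of_forall fun y => ?_)) h3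
  exact (deriv_y hF x s y).symm

end half

omit [FiniteDimensional ℝ V] [MeasurableSpace V] [BorelSpace V] in
lemma smooth_par (a b c : V) (β : TForm (⊤ : Opens V) 1) (v : Fin 1 → V) :
    ContDiff ℝ ∞ (fun r => β (par a b c r) v) :=
  (ContinuousAlternatingMap.apply ℝ V ℝ v).contDiff.comp
    (β.contDiff.comp (par a b c).contDiff)

lemma compact_par (a b c : V) (hP : Function.Injective (par a b c))
    (β : TForm (⊤ : Opens V) 1) (v : Fin 1 → V) :
    HasCompactSupport (fun r => β (par a b c r) v) :=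
  (β.hasCompactSupport.comp_isClosedEmbedding (closedEmb hP)).comp_left
    (g := ContinuousAlternatingMap.apply ℝ V ℝ v) (map_zero _)

/-- Stokes on the positive half space -/
lemma stokes_pos (a b c : V) (hP : Function.Injective (par a b c)) (β : TForm (⊤ : Opens V) 1) :
    piece (par a b c) hP ((Set.Ioi (0 : ℝ)) ×ˢ (Set.univ : Set (ℝ × ℝ))) (wedge b c) (dForm β) =
      - ∫ r : ℝ × ℝ, β (par a b c (0, r)) ![c] := by
  rw [piece_apply]
  simp only [dForm_par]
  rw [integral_sub (integrable_fderiv (smooth_par a b c β _) (compact_par a b c hP β _) _).integrableOn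
    (integrable_fderiv (smooth_par a b c β _) (compact_par a b c hP β _) _).integrableOn,
    int_dx_pos (smooth_par a b c β _) (compact_par a b c hP β _),
    int_dy (smooth_par a b c β _) (compact_par a b c hP β _), sub_zero]

/-- Stokes on the negative half space -/
lemma stokes_neg (a b c : V) (hP : Function.Injective (par a b c)) (β : TForm (⊤ : Opens V) 1) :
    piece (par a b c) hP ((Set.Iio (0 : ℝ)) ×ˢ (Set.univ : Set (ℝ × ℝ))) (wedge b c) (dForm β) =
      ∫ r : ℝ × ℝ, β (par a b c (0, r)) ![c] := by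
  rw [piece_apply]
  simp only [dForm_par]
  rw [integral_sub (integrable_fderiv (smooth_par a b c β _) (compact_par a b c hP β _) _).integrableOn
    (integrable_fderiv (smooth_par a b c β _) (compact_par a b c hP β _) _).integrableOn,
    int_dx_neg (smooth_par a b c β _) (compact_par a b c hP β _),
    int_dy (smooth_par a b c β _) (compact_par a b c hP β _), sub_zero]

end

end Pool.Agent.Q137.TC
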