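import Pool.Agent.Q137.TC.Defs

/-! Holomorphic functions on Riemann surfaces. -/

open scoped Distributions Manifold ContDiff Topology NNReal
open MeasureTheory TopologicalSpace Filter

namespace Pool.Agent.Q137.TC

section

variable {S : Type} [TopologicalSpace S] [ChartedSpace ℂ S] {E : Type} [NormedAddCommGroup E]
  [NormedSpace ℂ E]

/-- in a chart, a holomorphic map is complex differentiable -/
lemma differentiableOn_chart [IsManifold 𝓘(ℂ) ω S] {g : S → E} (hg : MDifferentiable 𝓘(ℂ) 𝓘(ℂ, E) g)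
    {e : OpenPartialHomeomorph S ℂ} (he : e ∈ atlas ℂ S) :
    DifferentiableOn ℂ (g ∘ e.symm) e.target := by
  have h1 : MDifferentiableOn 𝓘(ℂ) 𝓘(ℂ) e.symm e.target :=
    mdifferentiableOn_atlas_symm he
  have h2 : MDifferentiableOn 𝓘(ℂ) 𝓘(ℂ, E) (g ∘ e.symm) e.target :=
    hg.comp_mdifferentiableOn h1
  exact mdifferentiableOn_iff_differentiableOn.1 h2

lemma analyticAt_chart [IsManifold 𝓘(ℂ) ω S] {g : S → ℂ} (hg : MDifferentiable 𝓘(ℂ) 𝓘(ℂ) g)
    (p : S) : AnalyticAt ℂ (g ∘ (chartAt ℂ p).symm) (chartAt ℂ p p) :=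
  (differentiableOn_chart hg (chart_mem_atlas ℂ p)).analyticAt
    ((chartAt ℂ p).open_target.mem_nhds (mem_chart_target ℂ p))

/-- open mapping -/
lemma eventually_const_or_open [IsManifold 𝓘(ℂ) ω S] {g : S → ℂ}
    (hg : MDifferentiable 𝓘(ℂ) 𝓘(ℂ) g) (p : S) :
    (∀ᶠ q in 𝓝 p, g q = g p) ∨ 𝓝 (g p) ≤ map g (𝓝 p) := by
  have h := (analyticAt_chart hg p).eventually_constant_or_nhds_le_map_nhds
  have hp : (chartAt ℂ p).symm (chartAt ℂ p p) = p :=
    (chartAt ℂ p).left_inv (mem_chart_source ℂ p)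
  have hm : map (chartAt ℂ p).symm (𝓝 (chartAt ℂ p p)) = 𝓝 p := by
    rw [(chartAt ℂ p).symm.map_nhds_eq (by simp), hp]
  rcases h with h | h
  · left
    rw [← hm, eventually_map]
    simpa [hp] using h
  · right
    rw [← hm, map_map]
    simpa [hp] using h

/-- identity theorem -/
lemma eq_const_of_eventually [IsManifold 𝓘(ℂ) ω S] [ConnectedSpace S] {g : S → ℂ}
    (hg : MDifferentiable 𝓘(ℂ) 𝓘(ℂ) g) {p : S} (h : ∀ᶠ q in 𝓝 p, g q = g p) (q : S) :
    g q = g p := by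
  set A : Set S := {x | ∀ᶠ y in 𝓝 x, g y = g p} with hA
  have hAo : IsOpen A := by
    rw [isOpen_iff_eventually]
    intro x hx
    exact eventually_eventually_nhds.2 hx
  have hAc : IsClosed A := by
    rw [isClosed_iff_frequently]
    intro x hx
    have h1 := (analyticAt_chart hg x).sub (analyticAt_const (v := g p))
    have hxs : (chartAt ℂ x).symm (chartAt ℂ x x) = x :=
      (chartAt ℂ x).left_inv (mem_chart_source ℂ x)
    have hm : map (chartAt ℂ x).symm (𝓝 (chartAt ℂ x x)) = 𝓝 x := by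
      rw [(chartAt ℂ x).symm.map_nhds_eq (by simp), hxs]
    rcases h1.eventually_eq_zero_or_eventually_ne_zero with h2 | h2
    · show ∀ᶠ y in 𝓝 x, g y = g p
      rw [← hm, eventually_map]
      filter_upwards [h2] with z hz
      simpa [sub_eq_zero] using hz
    · exfalso
      -- points of `A` near `x`
      rw [← hm, frequently_map] at hx
      have h3 : ∀ᶠ z in 𝓝 (chartAt ℂ x x), z ∈ (chartAt ℂ x).target :=
        (chartAt ℂ x).open_target.mem_nhds (mem_chart_target ℂ x)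
      rw [eventually_nhdsWithin_iff] at h2
      have h2' := eventually_eventually_nhds.2 h2
      obtain ⟨z, hzA, hz2, hz3⟩ := (hx.and_eventually (h2'.and h3)).exists
      -- near z, g = g p; but also nonzero away from centre
      have hmz : map (chartAt ℂ x).symm (𝓝 z) = 𝓝 ((chartAt ℂ x).symm z) :=
        (chartAt ℂ x).symm.map_nhds_eq (by simpa using hz3)
      have hzA' : ∀ᶠ y in 𝓝 z, g ((chartAt ℂ x).symm y) = g p := by
        have : ∀ᶠ y in 𝓝 ((chartAt ℂ x).symm z), g y = g p := hzA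
        rw [← hmz, eventually_map] at this
        exact this
      have h4 : ∀ᶠ y in 𝓝 z, ¬ (y ≠ chartAt ℂ x x) := by
        filter_upwards [hzA', hz2] with y hy1 hy2 hy3
        apply hy2 hy3
        simp [hy1]
      have h5 : (𝓝[≠] z).NeBot := inferInstance
      have h6 : ∀ᶠ y in 𝓝[≠] z, False := by
        have h7 : ∀ᶠ y in 𝓝[≠] z, ¬ (y ≠ chartAt ℂ x x) := h4.filter_mono nhdsWithin_le_nhds
        have h8 : ∀ᶠ y in 𝓝[≠] z, y ≠ z := eventually_mem_nhdsWithin
        have h9 : z = chartAt ℂ x x := by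
          have := h4.self_of_nhds
          simpa using this
        filter_upwards [h7, h8] with y hy1 hy2
        exact hy1 (h9 ▸ hy2)
      exact (h6.exists).elim fun _ h => h
  have hAu : A = Set.univ := IsClopen.eq_univ ⟨hAc, hAo⟩ ⟨p, h⟩
  have hq : q ∈ A := hAu ▸ Set.mem_univ q
  exact hq.self_of_nhds

/-- a nowhere locally constant holomorphic function with non-negative real part has positive
real part -/
lemma re_pos [IsManifold 𝓘(ℂ) ω S] {g : S → ℂ} (hg : MDifferentiable 𝓘(ℂ) 𝓘(ℂ) g)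
    (hnc : ∀ p, ¬ ∀ᶠ q in 𝓝 p, g q = g p) (h0 : ∀ p, 0 ≤ (g p).re) (p : S) : 0 < (g p).re := by
  rcases eventually_const_or_open hg p with h | h
  · exact absurd h (hnc p)
  · by_contra hp
    have hp0 : (g p).re = 0 := le_antisymm (not_lt.1 hp) (h0 p)
    have h1 : Set.range g ∈ 𝓝 (g p) := h (by simp [mem_map, Set.preimage_range])
    have h2 : Tendsto (fun ε : ℝ => g p - ε) (𝓝[>] 0) (𝓝 (g p)) := by
      have : Tendsto (fun ε : ℝ => g p - ε) (𝓝 0) (𝓝 (g p - (0 : ℝ))) :=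
        (continuous_const.sub Complex.continuous_ofReal).tendsto 0
      simpa using this.mono_left nhdsWithin_le_nhds
    obtain ⟨ε, h3, h4⟩ := nonempty_of_mem (inter_mem (mem_map.1 (h2 h1))
      (self_mem_nhdsWithin : Set.Ioi (0 : ℝ) ∈ 𝓝[>] 0))
    obtain ⟨q, hq⟩ := h3
    have h5 := h0 q
    rw [hq] at h5
    simp [hp0] at h5
    exact absurd h4 (not_lt.2 h5)

/-- a holomorphic function with locally constant real part is locally constant -/
lemma eventually_const_of_re [IsManifold 𝓘(ℂ) ω S] {g : S → ℂ}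
    (hg : MDifferentiable 𝓘(ℂ) 𝓘(ℂ) g) {p : S} (h : ∀ᶠ q in 𝓝 p, (g q).re = 0) :
    ∀ᶠ q in 𝓝 p, g q = g p := by
  rcases eventually_const_or_open hg p with h1 | h1
  · exact h1
  · exfalso
    have h2 : {z : ℂ | z.re = 0} ∈ 𝓝 (g p) := h1 h
    have h4 : Tendsto (fun ε : ℝ => g p + ε) (𝓝[>] 0) (𝓝 (g p)) := by
      have : Tendsto (fun ε : ℝ => g p + ε) (𝓝 0) (𝓝 (g p + (0 : ℝ))) :=
        (continuous_const.add Complex.continuous_ofReal).tendsto 0
      simpa using this.mono_left nhdsWithin_le_nhds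
    obtain ⟨ε, h5, h6⟩ := nonempty_of_mem (inter_mem (mem_map.1 (h4 h2))
      (self_mem_nhdsWithin : Set.Ioi (0 : ℝ) ∈ 𝓝[>] 0))
    have h7 : (g p).re = 0 := h.self_of_nhds
    have h8 : (g p + ε).re = 0 := h5
    simp [h7] at h8
    simp [h8] at h6

/-- a proper curve parametrised by a function with positive real part stays out of a ball -/
lemma avoid_ball {V : Type} [NormedAddCommGroup V] {U : Set V} {u : S → V}
    (hproper : ∀ K : Set V, IsCompact K → K ⊆ U → IsCompact (u ⁻¹' K))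
    {g : S → ℂ} (hgc : Continuous g) (hopen : ∀ p, 𝓝 (g p) ≤ map g (𝓝 p)) {Φ : ℂ → V}
    (hΦc : Continuous Φ) (hΦi : Function.Injective Φ) (hu : ∀ p, u p = Φ (g p))
    (hpos : ∀ p, 0 < (g p).re) {r : ℝ} (hball : Metric.ball 0 r ⊆ U)
    (hΦ : ∀ (ζ : ℂ) (τ : ℝ), τ ∈ Set.Icc (0 : ℝ) 1 → ‖Φ (ζ - (τ * ζ.re : ℝ))‖ ≤ ‖Φ ζ‖) (p : S) :
    u p ∉ Metric.ball 0 r := by
  intro hp
  set ζ := g p with hζ
  set γ : ℝ → ℂ := fun τ => ζ - (τ * ζ.re : ℝ) with hγ
  have hγc : Continuous γ := by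
    apply continuous_const.sub
    exact Complex.continuous_ofReal.comp (continuous_id.mul continuous_const)
  set K : Set V := (fun τ => Φ (γ τ)) '' Set.Icc (0 : ℝ) 1 with hK
  have hKc : IsCompact K := isCompact_Icc.image (hΦc.comp hγc)
  have hKU : K ⊆ U := by
    rintro _ ⟨τ, hτ, rfl⟩
    apply hball
    rw [mem_ball_zero_iff] at hp ⊢
    refine lt_of_le_of_lt (hΦ ζ τ hτ) ?_
    rw [hζ, ← hu]; exact hp
  have hc := hproper K hKc hKU
  have hne : (u ⁻¹' K).Nonempty := ⟨p, 0, by simp, by simp [hγ, hζ, hu p]⟩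
  obtain ⟨q, hqK, hq⟩ := hc.exists_isMinOn hne (Complex.continuous_re.comp hgc).continuousOn
  obtain ⟨τ, hτ, hτq⟩ := hqK
  have hgq : g q = γ τ := hΦi (by rw [← hu]; exact hτq.symm)
  have hre : (g q).re = (1 - τ) * ζ.re := by rw [hgq, hγ]; simp; ring
  have hζp : 0 < ζ.re := hpos p
  have hτ1 : τ < 1 := by
    have h1 := hpos q
    rw [hre] at h1
    have := (mul_pos_iff_of_pos_right hζp).1 h1
    linarith
  have h1 : Set.range g ∈ 𝓝 (g q) := hopen q (by simp [mem_map, Set.preimage_range])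
  have h2 : Tendsto γ (𝓝[>] τ) (𝓝 (g q)) := by
    rw [hgq]; exact (hγc.tendsto τ).mono_left nhdsWithin_le_nhds
  have h3 : Set.Ioo τ 1 ∈ 𝓝[>] τ := Ioo_mem_nhdsGT hτ1
  obtain ⟨σ, ⟨q', hq'⟩, hσ1, hσ2⟩ := nonempty_of_mem (inter_mem (mem_map.1 (h2 h1)) h3)
  have h4 : q' ∈ u ⁻¹' K := ⟨σ, ⟨hτ.1.trans hσ1.le, hσ2.le⟩, by simp only [hu q', hq']⟩
  have h5 : (g q).re ≤ (g q').re := hq h4
  have h6 : (g q').re = (1 - σ) * ζ.re := by rw [hq', hγ]; simp; ring
  rw [hre, h6] at h5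
  have := le_of_mul_le_mul_right h5 hζp
  linarith

end

end Pool.Agent.Q137.TC
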